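import Pool.Agent.U398.MV.Stm8

/-!
# Project MV8, package FUB
-/

set_option autoImplicit false

namespace Pool.Agent.U669.MV8

open MeasureTheory Filter Topology Set Pool.Agent.U398.MV

theorem core {α : Type} [MeasurableSpace α] (μ : Measure α) [IsProbabilityMeasure μ] (ν : Measure ℝ)
    [IsFiniteMeasure ν] (f : α → ℝ → ℝ) (hf : Measurable (Function.uncurry f)) (B : ℝ) (hB0 : 0 ≤ B)
    (hB : ∀ᵐ p ∂μ, ∀ᵐ t ∂ν, |f p t| ≤ B) (hC : ∀ p, ∃ C : ℝ, 0 ≤ C ∧ ∀ᵐ t ∂ν, |f p t| ≤ C) :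
    Integrable (fun t => ∫ p, f p t ∂μ) ν ∧ Integrable (fun t => (∫ p, f p t ∂μ) ^ 2) ν ∧
    (∫ t, (∫ p, f p t ∂μ) ∂ν) = ∫ p, (∫ t, f p t ∂ν) ∂μ ∧
    (∫ t, (∫ p, f p t ∂μ) ^ 2 ∂ν) = ∫ p, (∫ q, (∫ t, f p t * f q t ∂ν) ∂μ) ∂μ ∧
    Integrable (fun p => ∫ t, f p t ∂ν) μ ∧
    Integrable (fun p => ∫ q, (∫ t, f p t * f q t ∂ν) ∂μ) μ ∧
    ∀ p, Integrable (fun q => ∫ t, f p t * f q t ∂ν) μ := by
  have hfs : StronglyMeasurable (Function.uncurry f) := hf.stronglyMeasurable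
  have hset : MeasurableSet {x : α × ℝ | |f x.1 x.2| ≤ B} :=
    measurableSet_le (hf.abs) measurable_const
  have hBp : ∀ᵐ z ∂(μ.prod ν), |f z.1 z.2| ≤ B := (Measure.ae_prod_iff_ae_ae hset).mpr hB
  have hi : Integrable (Function.uncurry f) (μ.prod ν) :=
    Integrable.of_bound hfs.aestronglyMeasurable B (by
      filter_upwards [hBp] with z hz
      exact hz)
  have hBt : ∀ᵐ t ∂ν, ∀ᵐ p ∂μ, |f p t| ≤ B := (Measure.ae_ae_comm hset).mp hB
  have h1 : Integrable (fun t => ∫ p, f p t ∂μ) ν := hi.integral_prod_right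
  have hg : StronglyMeasurable (fun t => ∫ p, f p t ∂μ) := hfs.integral_prod_left'
  have hgB : ∀ᵐ t ∂ν, |∫ p, f p t ∂μ| ≤ B := by
    filter_upwards [hBt] with t ht
    have := norm_integral_le_of_norm_le_const (μ := μ) (f := fun p => f p t) (C := B) ht
    simpa using this
  have hG : Integrable (Function.uncurry fun p t => f p t * ∫ q, f q t ∂μ) (μ.prod ν) := by
    refine Integrable.of_bound ((hfs.mul (hg.comp_measurable measurable_snd)).aestronglyMeasurable) (B * B) ?_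
    have h2 : ∀ᵐ z ∂(μ.prod ν), |∫ q, f q z.2 ∂μ| ≤ B := by
      refine (Measure.ae_prod_iff_ae_ae ?_).mpr (Eventually.of_forall fun p => hgB)
      exact measurableSet_le ((hg.comp_measurable measurable_snd).measurable.abs) measurable_const
    filter_upwards [hBp, h2] with z hz hz2
    show ‖f z.1 z.2 * ∫ q, f q z.2 ∂μ‖ ≤ B * B
    rw [norm_mul]
    exact mul_le_mul hz hz2 (norm_nonneg _) hB0
  have hP : ∀ p, Integrable (Function.uncurry fun q t => f p t * f q t) (μ.prod ν) := by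
    intro p
    obtain ⟨C, hC0, hC⟩ := hC p
    have hm : Measurable (fun z : α × ℝ => f p z.2) :=
      hf.comp (measurable_const.prodMk measurable_snd)
    refine Integrable.of_bound ((hm.mul hf).aestronglyMeasurable) (C * B) ?_
    have h2 : ∀ᵐ z ∂(μ.prod ν), |f p z.2| ≤ C := by
      refine (Measure.ae_prod_iff_ae_ae ?_).mpr (Eventually.of_forall fun _ => hC)
      exact measurableSet_le hm.abs measurable_const
    filter_upwards [hBp, h2] with z hz hz2
    show ‖f p z.2 * f z.1 z.2‖ ≤ C * B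
    rw [norm_mul]
    exact mul_le_mul hz2 hz (norm_nonneg _) hC0
  have hin : ∀ p, (∫ q, (∫ t, f p t * f q t ∂ν) ∂μ) = ∫ t, f p t * ∫ q, f q t ∂μ ∂ν := by
    intro p
    rw [integral_integral_swap (hP p)]
    refine integral_congr_ae (Eventually.of_forall fun t => ?_)
    exact integral_const_mul _ _
  refine ⟨h1, ?_, ?_, ?_, ?_, ?_, ?_⟩
  · refine Integrable.of_bound (h1.aestronglyMeasurable.pow 2) (B ^ 2) ?_
    filter_upwards [hgB] with t ht
    rw [norm_pow]
    exact pow_le_pow_left₀ (norm_nonneg _) ht 2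
  · exact (integral_integral_swap hi).symm
  · simp_rw [hin]
    rw [integral_integral_swap hG]
    refine integral_congr_ae (Eventually.of_forall fun t => ?_)
    show (∫ p, f p t ∂μ) ^ 2 = ∫ p, f p t * ∫ q, f q t ∂μ ∂μ
    rw [integral_mul_const, sq]
  · exact hi.integral_prod_left
  · simp_rw [hin]
    exact hG.integral_prod_left
  · intro p
    exact (hP p).integral_prod_left

theorem Mf_cont : Continuous Mf := by
  unfold Mf
  have h : Continuous fun t : ℝ => t / (2 * Real.pi) := continuous_id.div_const _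
  exact (Real.continuous_mul_log.comp h).sub h

theorem prob (l : ℝ) (hl : 0 < l) : IsProbabilityMeasure (mu2 l) := by
  constructor
  unfold mu2
  rw [Measure.smul_apply, Measure.restrict_apply_univ, Measure.volume_eq_prod, Measure.prod_prod,
    Real.volume_Icc, smul_eq_mul, ← ENNReal.ofReal_mul (by linarith), ← ENNReal.ofReal_mul (by positivity),
    ← ENNReal.ofReal_one]
  congr 1
  field_simp
  ring

theorem t_FUB : S_FUB := by
  intro N hN T l hT hl
  have hP := prob l hl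
  have hT2 : T ≤ 2 * T := by linarith
  set ν : Measure ℝ := volume.restrict (Ioc T (2 * T)) with hν
  have hNm : Measurable (fun t : ℝ => (N t : ℝ)) := by
    have : Monotone (fun t : ℝ => (N t : ℝ)) := fun x y h => by
      show (N x : ℝ) ≤ (N y : ℝ)
      exact_mod_cast hN h
    exact this.measurable
  have hsm : Measurable (sg N) := hNm.sub Mf_cont.measurable
  have hf : Measurable (Function.uncurry fun (p : ℝ × ℝ) t => Uu N p t ^ 2) := by
    have h1 : Measurable (fun z : (ℝ × ℝ) × ℝ => sg N (z.2 + z.1.1)) :=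
      hsm.comp (measurable_snd.add (measurable_fst.comp measurable_fst))
    have h2 : Measurable (fun z : (ℝ × ℝ) × ℝ => sg N (z.2 + z.1.2)) :=
      hsm.comp (measurable_snd.add (measurable_snd.comp measurable_fst))
    exact (h1.sub h2).pow_const 2
  have hbd : ∀ R : ℝ, ∃ C : ℝ, 0 ≤ C ∧ ∀ p : ℝ × ℝ, |p.1| ≤ R → |p.2| ≤ R → ∀ t ∈ Icc T (2 * T),
      |Uu N p t ^ 2| ≤ C := by
    intro R
    obtain ⟨M, hM⟩ := (isCompact_Icc (a := T - R) (b := 2 * T + R)).exists_bound_of_continuousOn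
      (f := Mf) Mf_cont.continuousOn
    have hs : ∀ s ∈ Icc (T - R) (2 * T + R), |sg N s| ≤ (N (2 * T + R) : ℝ) + M := by
      intro s hs
      have h1 := hM s hs
      rw [Real.norm_eq_abs] at h1
      have h2 : (N s : ℝ) ≤ N (2 * T + R) := by exact_mod_cast hN hs.2
      have h3 : (0 : ℝ) ≤ N s := Nat.cast_nonneg _
      unfold sg
      rw [abs_le] at h1 ⊢
      constructor <;> linarith [h1.1, h1.2]
    refine ⟨(2 * ((N (2 * T + R) : ℝ) + M)) ^ 2, by positivity, ?_⟩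
    intro p hp1 hp2 t ht
    rw [abs_le] at hp1 hp2
    have g1 := hs (t + p.1) ⟨by linarith [ht.1, hp1.1], by linarith [ht.2, hp1.2]⟩
    have g2 := hs (t + p.2) ⟨by linarith [ht.1, hp2.1], by linarith [ht.2, hp2.2]⟩
    rw [abs_pow]
    refine pow_le_pow_left₀ (abs_nonneg _) ?_ 2
    unfold Uu
    rw [abs_le] at g1 g2 ⊢
    constructor <;> linarith [g1.1, g1.2, g2.1, g2.2]
  have hνm : ∀ᵐ t ∂ν, t ∈ Icc T (2 * T) := by
    filter_upwards [ae_restrict_mem (measurableSet_Ioc : MeasurableSet (Ioc T (2 * T)))] with t ht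
    exact ⟨ht.1.le, ht.2⟩
  obtain ⟨B, hB0, hB⟩ := hbd l
  have hBae : ∀ᵐ p ∂(mu2 l), ∀ᵐ t ∂ν, |Uu N p t ^ 2| ≤ B := by
    have hS : ∀ᵐ p ∂(mu2 l), p ∈ Icc (0 : ℝ) l ×ˢ Icc (0 : ℝ) l := by
      unfold mu2
      exact Measure.ae_smul_measure (ae_restrict_mem (measurableSet_Icc.prod measurableSet_Icc)) _
    filter_upwards [hS] with p hp
    filter_upwards [hνm] with t ht
    exact hB p (abs_le.mpr ⟨by linarith [hp.1.1], hp.1.2⟩) (abs_le.mpr ⟨by linarith [hp.2.1], hp.2.2⟩) t ht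
  have hCae : ∀ p : ℝ × ℝ, ∃ C : ℝ, 0 ≤ C ∧ ∀ᵐ t ∂ν, |Uu N p t ^ 2| ≤ C := by
    intro p
    obtain ⟨C, hC0, hC⟩ := hbd (max |p.1| |p.2|)
    refine ⟨C, hC0, ?_⟩
    filter_upwards [hνm] with t ht
    exact hC p (le_max_left _ _) (le_max_right _ _) t ht
  obtain ⟨c1, c2, c3, c4, c5, c6, c7⟩ := core (mu2 l) ν (fun p t => Uu N p t ^ 2) hf B hB0 hBae hCae
  have hII : ∀ g : ℝ → ℝ, (∫ t in T..(2 * T), g t) = ∫ t, g t ∂ν := fun g =>
    intervalIntegral.integral_of_le hT2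
  have hIO : ∀ g : ℝ → ℝ, Integrable g ν → IntegrableOn g (Icc T (2 * T)) := fun g hg =>
    (integrableOn_Icc_iff_integrableOn_Ioc).mpr hg
  refine ⟨hP, ?_, ?_, ?_, ?_, ?_, ?_, ?_⟩
  · refine hIO _ ?_
    unfold Dv
    exact c1.const_mul _
  · refine hIO _ ?_
    unfold Dv
    simp_rw [mul_pow]
    exact c2.const_mul _
  · simp_rw [hII]
    unfold Dv
    rw [integral_const_mul, c3]
  · simp_rw [hII]
    unfold Dv
    simp_rw [mul_pow]
    rw [integral_const_mul, c4]
    norm_num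
  · simp_rw [hII]
    exact c5
  · simp_rw [hII]
    exact c6
  · intro p
    simp_rw [hII]
    exact c7 p

end Pool.Agent.U669.MV8
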